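import Pool.Agent.Work.MP_70e905_nt.CL3.All3
import Pool.Agent.Work.MP_1a023c_nt.Common3

set_option autoImplicit false

namespace Pool.Agent.Results.MP_1a023c_nt.CommonPowers

open Finset Classical

/-- For every `k` and `ε > 0` there is `J₀` such that for all `k` positive rationals `r i` and signs
`e i = ±1` and all `J ≥ J₀` at least `(3 / (2 * 4 ^ k + 1) - ε) J` of the exponents `1 ≤ j ≤ J` are such that for
ALL `i` the number `(r i)^j` is `(p + e i) / (q + e i)` for infinitely many pairs of primes `(p, q)`. The constant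
is `1/3` for `k = 1`, `1/11` for `k = 2`, `1/43` for `k = 3`. -/
theorem result (k : ℕ) (ε : ℝ) (hε : 0 < ε) :
    ∃ J₀ : ℕ, ∀ (r : Fin k → ℚ) (e : Fin k → ℤ), (∀ i, 0 < r i) → (∀ i, e i = 1 ∨ e i = -1) →
      ∀ J : ℕ, J₀ ≤ J →
        (3 / (2 * 4 ^ k + 1) - ε) * J ≤
        (#{j ∈ Icc 1 J | ∀ i, {t : ℕ × ℕ | t.1.Prime ∧ t.2.Prime ∧
          r i ^ j = ((t.1 : ℚ) + e i) / ((t.2 : ℚ) + e i)}.Infinite} : ℝ) := by
  obtain ⟨J₀, h⟩ := PoolRat.common_sim
    (fun N hN => ⟨1 / 4 + 1 / 10 ^ 19, by norm_num, PoolCL.clusterP_all N hN⟩) k ε hε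
  refine ⟨J₀, fun r e hr he J hJ => ?_⟩
  have h1 := h r e hr he J hJ
  rw [PoolSim.KK_real] at h1
  exact h1

end Pool.Agent.Results.MP_1a023c_nt.CommonPowers
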