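import Pool.Agent.Work.MP_70e905_nt.CL.All
import Pool.Agent.Work.MP_1a023c_nt.ColourGam

set_option autoImplicit false

namespace Pool.Agent.Results.MP_1a023c_nt.SubgroupColourings

/-- Let `e = ±1` and let `Γ` be a set of positive rationals, closed under division, with an element different
from `1` (a nontrivial subgroup of the positive rationals). For every colouring of the primes with finitely many
colours there are a colour `i` and a finite subset `F` of `Γ` such that for EVERY `g ∈ Γ` some `f ∈ F` is such that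
`g f = (p + e) / (q + e)` for infinitely many pairs `(p, q)` of primes of colour `i`. -/
theorem result (e : ℤ) (he : e = 1 ∨ e = -1) (Γ : Set ℚ) (hpos : ∀ a ∈ Γ, 0 < a)
    (hdiv : ∀ a ∈ Γ, ∀ b ∈ Γ, a / b ∈ Γ) (hne : ∃ a ∈ Γ, a ≠ 1) (k : ℕ) (c : ℕ → Fin k) :
    ∃ i : Fin k, ∃ F : Finset ℚ, (∀ f ∈ F, f ∈ Γ) ∧ ∀ g ∈ Γ, ∃ f ∈ F,
      {t : ℕ × ℕ | t.1.Prime ∧ t.2.Prime ∧ c t.1 = i ∧ c t.2 = i ∧
        g * f = ((t.1 : ℚ) + e) / ((t.2 : ℚ) + e)}.Infinite :=
  PoolRat.colour_gam (fun N η hN hη => PoolCL.clusterM_all N η hN hη) e he Γ hpos hdiv hne k c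

end Pool.Agent.Results.MP_1a023c_nt.SubgroupColourings
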