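import Pool.Agent.Work.MP_70e905_nt.CL.All
import Pool.Agent.Work.MP_70e905_nt.CL3.All3
import Pool.Agent.Work.MP_1a023c_nt.CluT
import Pool.Agent.Work.MP_1a023c_nt.Sub

set_option autoImplicit false

namespace Pool.Agent.Results.MP_1a023c_nt.UniversalSubsets

open Finset Classical

/-- For every `r ≥ 1` and `ε > 0` there is `n₀` such that for each sign `e = ±1` and every set `A` of at least
`n₀` positive integers at least the proportion `c r - ε` of the `r`-element subsets `S` of `A` is such that for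
infinitely many `n` all the numbers `a n - e`, `a ∈ S`, are prime; here `c 2 = 1/3` and `c r = (1/4)^(r-1)` for
`r ≠ 2`. -/
theorem result (r : ℕ) (hr : 1 ≤ r) (ε : ℝ) (hε : 0 < ε) : ∃ n₀ : ℕ, ∀ e : ℤ, e = 1 ∨ e = -1 →
    ∀ A : Finset ℕ, (∀ a ∈ A, 0 < a) → n₀ ≤ #A →
      ((if r = 2 then 1 / 3 else (1 / 4) ^ (r - 1)) - ε) * ((#A).choose r : ℝ) ≤
        (#{S ∈ A.powersetCard r | {n : ℕ |
          ∀ a : ℕ, a ∈ S → ∃ p : ℕ, p.Prime ∧ (p : ℤ) = (a : ℤ) * n - e}.Infinite} : ℝ) := by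
  by_cases h2 : r = 2
  · subst h2
    obtain ⟨L, hL, hC⟩ := PoolRat.cluT PoolCL.clusterPlus_three
    obtain ⟨n₀, h⟩ := PoolRat.subpairs 3 L (by norm_num) hC ε hε
    refine ⟨n₀, fun e he A hA hn => ?_⟩
    have h1 := h e he A hA hn
    rw [show ((3 : ℕ) : ℝ) = 3 by norm_num] at h1
    rw [if_pos rfl]
    exact h1
  · rw [if_neg h2]
    exact PoolRat.sub_inf (fun N η hN hη => PoolCL.clusterM_all N η hN hη) r hr ε hε

end Pool.Agent.Results.MP_1a023c_nt.UniversalSubsets
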